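import Pool.Agent.W2helper43.BD.Stm

/-!
# Project BD (helper43), piece DCB
-/

set_option autoImplicit false

open CategoryTheory CategoryTheory.Limits CategoryTheory.Pretriangulated

namespace Pool.Agent.W2helper91.BD

open Pool.Agent.W2helper43.BD

universe u v

/-- Restriction of a triangulated equivalence to full triangulated subcategories. -/
theorem restrict {C D : Type u} [Category.{v} C] [Category.{v} D] [HasZeroObject C]
    [HasZeroObject D] [Preadditive C] [Preadditive D] [HasShift C ℤ] [HasShift D ℤ]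
    [∀ n : ℤ, (shiftFunctor C n).Additive] [∀ n : ℤ, (shiftFunctor D n).Additive]
    [Pretriangulated C] [Pretriangulated D] (P : ObjectProperty C) (Q : ObjectProperty D)
    [P.IsTriangulated] [Q.IsTriangulated] (e : C ≌ D) [e.functor.CommShift ℤ]
    [e.functor.IsTriangulated] (h1 : ∀ X, P X → Q (e.functor.obj X))
    (h2 : ∀ Y, Q Y → P (e.inverse.obj Y)) :
    ∃ e' : P.FullSubcategory ≌ Q.FullSubcategory, ∃ _ : e'.functor.CommShift ℤ,
      e'.functor.IsTriangulated := by
  have key : ∃ _ : (Q.lift (P.ι ⋙ e.functor) (fun X => h1 _ X.2)).CommShift ℤ,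
      (Q.lift (P.ι ⋙ e.functor) (fun X => h1 _ X.2)).IsTriangulated :=
    ⟨inferInstance, inferInstance⟩
  have hess : (Q.lift (P.ι ⋙ e.functor) (fun X => h1 _ X.2)).EssSurj := ⟨fun Y =>
    ⟨⟨e.inverse.obj Y.obj, h2 _ Y.2⟩, ⟨Q.isoMk (e.counitIso.app Y.obj)⟩⟩⟩
  have heq : (Q.lift (P.ι ⋙ e.functor) (fun X => h1 _ X.2)).IsEquivalence := { }
  exact ⟨(Q.lift (P.ι ⋙ e.functor) (fun X => h1 _ X.2)).asEquivalence, key⟩

theorem p_dcb : P_DCB := by
  intro hA A B _ _ E
  let _ := HasDerivedCategory.standard (ModuleCat.{0} A)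
  let _ := HasDerivedCategory.standard (ModuleCat.{0} B)
  obtain ⟨e, ⟨hs, ht⟩, h1, h2⟩ := hA E
  exact restrict _ _ e h1 h2

end Pool.Agent.W2helper91.BD
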